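import Pool.Agent.Lib_MP_975ca8_an.GcdThree

/-!
# Positive coefficients, `gcd (k, l + 2)` equal to `1` or `3`

For positive `k`-periodic `B_n`: if `gcd (k, l + 2) = 1` every positive solution of
`x_{n+1} = 1 / (B_n x_n + x_{n-l})` is bounded; if `gcd (k, l + 2) = 3` this happens exactly
when three explicit products are smaller than one.
-/

namespace Pool.Agent.Results.MP_975ca8_an.GcdDividesThree

open Pool.Agent.LibMP975ca8

theorem result (k l : ℕ) (hk : 1 ≤ k) (B : ℕ → ℝ) (hB : ∀ n, 0 < B n)
    (hper : ∀ n, B (n + k) = B n) (hg : Nat.gcd k (l + 2) ∣ 3) :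
    (∀ x, IsPosSol l B x → BddAbove (Set.range x)) ↔
      (Nat.gcd k (l + 2) = 3 →
        ∀ r < 3, ∏ j ∈ (Finset.range k).filter (fun j => j % 3 = r),
          B j / (1 + B j * B (j + l + 1)) < 1) := by
  have hB0 : ∀ n, 0 ≤ B n := fun n => (hB n).le
  have : NeZero k := ⟨by omega⟩
  have hiff : (∀ x, IsPosSol l B x → BddAbove (Set.range x)) ↔
      ∃ y, IsPosSol l B y ∧ ∀ j, y (j + k) = y j := by
    constructor
    · intro h
      obtain ⟨h1, -⟩ := mkSol_spec l B (fun _ => 1) (fun _ => one_pos)
      exact exists_periodic_of_bdd hB0 hper h1 (h _ h1)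
    · rintro ⟨y, hy, hyp⟩ x hx
      exact bdd_of_bdd hB0 hx hy (bdd_of_periodic (by omega) hyp)
  rw [hiff]
  rcases (Nat.dvd_prime Nat.prime_three).mp hg with h1 | h3
  · constructor
    · intro _ h; omega
    · intro _
      exact bdd_of_gcd_one (by omega) hB hper h1
  · rw [periodic_iff_of_gcd_three (by omega) hB hper h3]
    constructor
    · intro h _; exact h
    · intro h; exact h h3

end Pool.Agent.Results.MP_975ca8_an.GcdDividesThree
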