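import Pool.Agent.Lib_MP_975ca8_an.Divides

/-!
# Closed form when the period `k` divides `l`

If `k ∣ l` and `B_n ≥ 0` is `k`-periodic, every positive solution of
`x_{n+1} = 1 / (B_n x_n + x_{n-l})` is bounded if and only if `k` is odd or
`(1 + B_0)(1 + B_2)⋯(1 + B_{k-2}) = (1 + B_1)(1 + B_3)⋯(1 + B_{k-1})`.
-/

namespace Pool.Agent.Results.MP_975ca8_an.PeriodDividesL

open Pool.Agent.LibMP975ca8

theorem result (k l : ℕ) (hk : 1 ≤ k) (B : ℕ → ℝ) (hB : ∀ n, 0 ≤ B n)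
    (hper : ∀ n, B (n + k) = B n) (hl : k ∣ l) :
    (∀ x, IsPosSol l B x → BddAbove (Set.range x)) ↔
      (Odd k ∨ ∏ t ∈ Finset.range (k / 2), (1 + B (2 * t)) =
        ∏ t ∈ Finset.range (k / 2), (1 + B (2 * t + 1))) := by
  rw [bdd_iff_periodic (by omega) hB hper, periodic_iff_of_dvd (by omega) hB hper hl]

end Pool.Agent.Results.MP_975ca8_an.PeriodDividesL
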