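import Pool.Agent.Lib_MP_975ca8_an.Divides

/-!
# Closed form when the period `k` divides `l + 2`

If `k ∣ l + 2` and `B_n ≥ 0` is `k`-periodic, every positive solution of
`x_{n+1} = 1 / (B_n x_n + x_{n-l})` is bounded if and only if the linear periodic system
`u_{n+1} + B_n u_n = 1` has a positive `k`-periodic solution with, for even `k`,
`u_0 u_2 ⋯ u_{k-2} = u_1 u_3 ⋯ u_{k-1}`.  For odd `k` this means that `k` explicit
alternating sums of products of the `B_i` are positive.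
-/

namespace Pool.Agent.Results.MP_975ca8_an.PeriodDividesLAddTwo

open Pool.Agent.LibMP975ca8

theorem result (k l : ℕ) (hk : 1 ≤ k) (B : ℕ → ℝ) (hB : ∀ n, 0 ≤ B n)
    (hper : ∀ n, B (n + k) = B n) (hl : k ∣ l + 2) :
    ((∀ x, IsPosSol l B x → BddAbove (Set.range x)) ↔
      ∃ u : ℕ → ℝ, (∀ n, 0 < u n) ∧ (∀ n, u (n + k) = u n) ∧
        (∀ n, u (n + 1) + B n * u n = 1) ∧
        (Odd k ∨ ∏ t ∈ Finset.range (k / 2), u (2 * t) =
          ∏ t ∈ Finset.range (k / 2), u (2 * t + 1))) ∧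
    (Odd k → ((∀ x, IsPosSol l B x → BddAbove (Set.range x)) ↔
      ∀ n < k, 0 < ∑ j ∈ Finset.range k, (-1) ^ j * ∏ i ∈ Finset.range j, B (n + k - 1 - i))) := by
  refine ⟨?_, fun ho => ?_⟩
  · rw [bdd_iff_periodic (by omega) hB hper, periodic_iff_of_dvd_add_two (by omega) hB hl]
  · rw [bdd_iff_periodic (by omega) hB hper, periodic_iff_of_odd_dvd_add_two ho hB hper hl]
    rfl

end Pool.Agent.Results.MP_975ca8_an.PeriodDividesLAddTwo
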