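import Pool.Agent.Lib_MP_975ca8_an.Basic

/-!
# Boundedness of `x_{n+1} = 1 / (B_n x_n + x_{n-l})` with `k`-periodic `B_n ≥ 0`

Every positive solution is bounded if and only if some positive solution is bounded, if and
only if there is a positive solution of period `k`, i.e. a positive solution of the finite
system `y_{i} (B_{i-1} y_{i-1} + y_{i-l-1}) = 1`, `i ∈ ZMod k`.
-/

namespace Pool.Agent.Results.MP_975ca8_an.PeriodicCriterion

open Pool.Agent.LibMP975ca8

/-- The characterisation of boundedness for all data `(k, l, B_0, …, B_{k-1})`. -/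
theorem result (k l : ℕ) (hk : 1 ≤ k) (B : ℕ → ℝ) (hB : ∀ n, 0 ≤ B n)
    (hper : ∀ n, B (n + k) = B n) :
    List.TFAE [
      ∀ x, IsPosSol l B x → BddAbove (Set.range x),
      ∃ x, IsPosSol l B x ∧ BddAbove (Set.range x),
      ∃ y, IsPosSol l B y ∧ ∀ j, y (j + k) = y j,
      ∃ y : ZMod k → ℝ, (∀ i, 0 < y i) ∧
        ∀ n : ℕ, y (n + l + 1) * (B n * y (n + l) + y n) = 1] := by
  haveI : NeZero k := ⟨by omega⟩
  tfae_have 1 → 2 := by
    intro h
    obtain ⟨h1, -⟩ := mkSol_spec l B (fun _ => 1) (fun _ => one_pos)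
    exact ⟨_, h1, h _ h1⟩
  tfae_have 2 → 3 := by
    rintro ⟨x, hx, hb⟩
    exact exists_periodic_of_bdd hB hper hx hb
  tfae_have 3 → 1 := by
    rintro ⟨y, hy, hyp⟩ x hx
    exact bdd_of_bdd hB hx hy (bdd_of_periodic (by omega) hyp)
  tfae_have 3 → 4 := by
    rintro ⟨y, hy, hyp⟩
    have hval : ∀ n : ℕ, y ((n : ZMod k).val) = y n := fun n =>
      periodic_val (B := y) (k := k) hyp n
    refine ⟨fun i => y i.val, fun i => hy.pos hB _, ?_⟩
    intro n
    have e1 : ((n : ZMod k) + l + 1) = ((n + l + 1 : ℕ) : ZMod k) := by push_cast; ring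
    have e2 : ((n : ZMod k) + l) = ((n + l : ℕ) : ZMod k) := by push_cast; ring
    show y ((n : ZMod k) + l + 1).val * (B n * y ((n : ZMod k) + l).val + y (n : ZMod k).val) = 1
    rw [e1, e2, hval, hval, hval, hy.2 n, one_div]
    apply inv_mul_cancel₀
    have := hy.pos hB n
    have := mul_nonneg (hB n) (hy.pos hB (n + l)).le
    linarith
  tfae_have 4 → 3 := by
    rintro ⟨y, hy, hs⟩
    refine ⟨fun j => y (j : ZMod k), ⟨fun j _ => hy _, ?_⟩, fun j => by simp⟩
    intro n
    have h := hs n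
    have e1 : ((n : ZMod k) + l + 1) = ((n + l + 1 : ℕ) : ZMod k) := by push_cast; ring
    have e2 : ((n : ZMod k) + l) = ((n + l : ℕ) : ZMod k) := by push_cast; ring
    rw [e1, e2] at h
    exact eq_one_div_of_mul_eq_one_left h
  tfae_finish

end Pool.Agent.Results.MP_975ca8_an.PeriodicCriterion
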